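import Pool.Agent.Helper51.UL.Fin

/-!
# Homothetic copies of arbitrary configurations in ARBITRARY sets of prime and of almost prime triples

(1) Let `0 < a < b` and let `A` be ANY set of integers `n` in an interval `(u, u + Y]`, `u ≤ Y ^ C`, such that all prime
factors of `n`, `n + a` and `n + b` are larger than `Y ^ θ` (for instance any set of `n > Y ^ θ` for which `n`, `n + a`,
`n + b` are prime). Let `H ≥ 1` and `D` be such that `D ≥ (log Y) ^ B`, `D ≥ H ^ ε` and `D H ≤ Y ^ (1 - ε)`, and let `T`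
be ANY set of at most `k` integers in `[-H, H]`. All but at most `δ Y / (log Y) ^ 3` of the elements `n` of `A` have this
property: for at least `D ^ (1 - ε)` of the dilations `1 ≤ d ≤ D` all the numbers `n + d t`, `t ∈ T`, belong to `A`. The
exponent `B` depends only on `C, k, a, b, ε, θ, δ`; there is no condition on `T`, which may depend on `Y` and have
elements up to `Y ^ (1 - 2 ε)`.

(2) Let `a = 2` or `a = 4`. For large `r` let `A` be the set of the primes `p` in `(X, 2 X]` for which `p + a` and `p + 6`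
have at most `r` prime factors, all larger than `p ^ (1 / r)`. At least `c X / (log X) ^ 3` of the elements `p` of `A`
have, for all these `D`, `H` and `T`, at least `D ^ (1 - ε)` dilations `1 ≤ d ≤ D` for which all the `p + d t`, `t ∈ T`,
belong to `A`.
-/

set_option autoImplicit false

open Finset

namespace Pool.Agent.Results.MP_c0d11e_nt.HomotheticTriples

/-- All prime factors of `n`, of `n + a` and of `n + b` are larger than `y`. -/
def RoughTriple (a b : ℕ) (y : ℝ) (n : ℕ) : Prop :=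
  ∀ q : ℕ, q.Prime → q ∣ n ∨ q ∣ n + a ∨ q ∣ n + b → y < q

/-- The number of the dilations `1 ≤ d ≤ D` for which all the numbers `n + d t`, `t ∈ T`, belong to `A`. -/
noncomputable def copies (A : Set ℕ) (T : Finset ℤ) (D n : ℕ) : ℕ :=
  {d : ℕ | 1 ≤ d ∧ d ≤ D ∧ ∀ t ∈ T, ∃ m ∈ A, (m : ℤ) = n + d * t}.ncard

/-- The primes `p` in `(X, 2 X]` for which `p + a` and `p + 6` have at most `r` prime factors, all larger than
`p ^ (1 / r)`. -/
def AlmostTriples (a r X : ℕ) : Set ℕ :=
  {p | X < p ∧ p ≤ 2 * X ∧ p.Prime ∧ (p + a).primeFactorsList.length ≤ r ∧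
    (p + 6).primeFactorsList.length ≤ r ∧
    ∀ q : ℕ, q.Prime → q ∣ p + a ∨ q ∣ p + 6 → (p : ℝ) ^ (1 / (r : ℝ)) < q}

/-- admissibility of both shapes -/
theorem adm (a : ℕ) (ha : a = 2 ∨ a = 4) (p : ℕ) (hp : p.Prime) :
    ∃ m : ℕ, ¬ p ∣ m ∧ ¬ p ∣ m + a ∧ ¬ p ∣ m + 6 := by
  have key : ∀ q : ℕ, q.Prime → p ∣ q → p = q := fun q hq h => (Nat.prime_dvd_prime_iff_eq hp hq).1 h
  rcases ha with rfl | rfl
  · by_cases h : p = 5 ∨ p = 7 ∨ p = 11
    · refine ⟨17, fun h1 => ?_, fun h1 => ?_, fun h1 => ?_⟩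
      · have := key 17 (by norm_num) h1
        omega
      · have := key 19 (by norm_num) h1
        omega
      · have := key 23 (by norm_num) h1
        omega
    · push Not at h
      refine ⟨5, fun h1 => h.1 (key 5 (by norm_num) h1), fun h1 => h.2.1 (key 7 (by norm_num) h1),
        fun h1 => h.2.2 (key 11 (by norm_num) h1)⟩
  · by_cases h : p = 7 ∨ p = 11 ∨ p = 13
    · refine ⟨37, fun h1 => ?_, fun h1 => ?_, fun h1 => ?_⟩
      · have := key 37 (by norm_num) h1
        omega
      · have := key 41 (by norm_num) h1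
        omega
      · have := key 43 (by norm_num) h1
        omega
    · push Not at h
      refine ⟨7, fun h1 => h.1 (key 7 (by norm_num) h1), fun h1 => h.2.1 (key 11 (by norm_num) h1),
        fun h1 => h.2.2 (key 13 (by norm_num) h1)⟩

/-- **Homothetic copies of arbitrary configurations in arbitrary sets of triples.** -/
theorem result :
    (∀ (a b C k : ℕ) (ε θ δ : ℝ), 0 < a → a < b → 0 < ε → ε < 1 → 0 < θ → 0 < δ →
      ∃ B : ℕ, ∀ Y H D u : ℕ, B ≤ Y → u ≤ Y ^ C → 1 ≤ H → Real.log Y ^ B ≤ D →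
      (H : ℝ) ^ ε ≤ D → (D : ℝ) * H ≤ (Y : ℝ) ^ (1 - ε) →
      ∀ A : Set ℕ, (∀ n ∈ A, u < n ∧ n ≤ u + Y ∧ RoughTriple a b ((Y : ℝ) ^ θ) n) →
      ∀ T : Finset ℤ, T.card ≤ k → (∀ t ∈ T, |t| ≤ H) →
        ({n : ℕ | n ∈ A ∧ (copies A T D n : ℝ) < (D : ℝ) ^ (1 - ε)}.ncard : ℝ) ≤
          δ * (Y / Real.log Y ^ 3)) ∧
    (∀ a : ℕ, a = 2 ∨ a = 4 → ∃ r₀ : ℕ, ∀ r : ℕ, r₀ ≤ r → ∃ c : ℝ, 0 < c ∧
      ∀ (k : ℕ) (ε : ℝ), 0 < ε → ε < 1 →
      ∃ B : ℕ, ∀ X H D : ℕ, B ≤ X → 1 ≤ H → Real.log X ^ B ≤ D → (H : ℝ) ^ ε ≤ D →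
      (D : ℝ) * H ≤ (X : ℝ) ^ (1 - ε) →
      ∀ T : Finset ℤ, T.card ≤ k → (∀ t ∈ T, |t| ≤ H) →
        c * (X / Real.log X ^ 3) ≤ ({p : ℕ | p ∈ AlmostTriples a r X ∧
          (D : ℝ) ^ (1 - ε) ≤ (copies (AlmostTriples a r X) T D p : ℝ)}.ncard : ℝ)) := by
  have hc : ∀ A T D n, copies A T D n = Pool.Agent.Helper51.UL.cps A T D n := fun _ _ _ _ => rfl
  constructor
  · intro a b C k ε θ δ ha hab hε hε1 hθ hδ
    obtain ⟨B, hB⟩ := Pool.Agent.Helper51.UL.ptSet (fun _ : Fin 3 => 1) ![0, (a : ℤ), (b : ℤ)]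
      (fun _ => le_rfl)
      (by
        intro i j hij
        have e1 : (0 : ℤ) ≠ a := by omega
        have e2 : (0 : ℤ) ≠ b := by omega
        have e3 : (a : ℤ) ≠ b := by omega
        fin_cases i <;> fin_cases j
        · exact absurd rfl hij
        · simpa using e1
        · simpa using e2
        · simpa using e1.symm
        · exact absurd rfl hij
        · simpa using e3
        · simpa using e2.symm
        · simpa using e3.symm
        · exact absurd rfl hij) C k ε θ δ hε hε1 hθ hδ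
    refine ⟨B, fun Y H D u hY hu hH hBD hHD hDY A hA T hTk hT => ?_⟩
    have h1 := hB Y H D u hY hu hH hBD hHD hDY A (by
      intro n hn
      obtain ⟨e1, e2, e3⟩ := hA n hn
      refine ⟨e1, e2, fun i q hq hqd => e3 q hq ?_⟩
      fin_cases i
      · left
        have h2 : (q : ℤ) ∣ ((n : ℕ) : ℤ) := by simpa using hqd
        exact Int.natCast_dvd_natCast.1 h2
      · right; left
        have h2 : (q : ℤ) ∣ ((n + a : ℕ) : ℤ) := by
          push_cast
          simpa using hqd
        exact Int.natCast_dvd_natCast.1 h2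
      · right; right
        have h2 : (q : ℤ) ∣ ((n + b : ℕ) : ℤ) := by
          push_cast
          simpa using hqd
        exact Int.natCast_dvd_natCast.1 h2) T hTk hT
    simp only [hc]
    exact h1
  · intro a ha
    obtain ⟨r₀, h⟩ := Pool.Agent.Helper51.UL.genPs (fun _ : Fin 2 => 1) ![(a : ℤ), 6]
      (fun _ => one_pos) (fun _ => by rw [Nat.cast_one]; exact isCoprime_one_left)
      (fun i => by
        fin_cases i
        · rcases ha with rfl | rfl <;> simp
        · simp)
      (fun i j hij => by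
        fin_cases i <;> fin_cases j
        · exact absurd rfl hij
        · rcases ha with rfl | rfl <;> simp
        · rcases ha with rfl | rfl <;> simp
        · exact absurd rfl hij)
      (fun p hp => by
        obtain ⟨m, h1, h2, h3⟩ := adm a ha p hp
        refine ⟨m, h1, fun i hd => ?_⟩
        fin_cases i
        · apply h2
          have h4 : (p : ℤ) ∣ ((m + a : ℕ) : ℤ) := by
            push_cast
            simpa using hd
          exact Int.natCast_dvd_natCast.1 h4
        · apply h3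
          have h4 : (p : ℤ) ∣ ((m + 6 : ℕ) : ℤ) := by
            push_cast
            simpa using hd
          exact Int.natCast_dvd_natCast.1 h4)
    refine ⟨r₀, fun r hr => ?_⟩
    obtain ⟨c, hc0, h⟩ := h r hr
    refine ⟨c, hc0, fun k ε hε hε1 => ?_⟩
    obtain ⟨B, hB⟩ := h k ε hε hε1
    refine ⟨B, fun X H D hX hH hBD hHD hDX T hTk hT => ?_⟩
    have h1 := hB X H D hX hH hBD hHD hDX T hTk hT
    have e : Pool.Agent.Helper51.UL.AlmP (fun _ : Fin 2 => 1) ![(a : ℤ), 6] r X =
        AlmostTriples a r X := by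
      ext p
      unfold Pool.Agent.Helper51.UL.AlmP AlmostTriples
      have e1 : ((1 : ℕ) : ℤ) * (p : ℤ) + (a : ℤ) = ((p + a : ℕ) : ℤ) := by
        push_cast
        ring
      have e2 : ((1 : ℕ) : ℤ) * (p : ℤ) + (6 : ℤ) = ((p + 6 : ℕ) : ℤ) := by
        push_cast
        ring
      simp only [Set.mem_ofPred_eq, Fin.forall_fin_two, Matrix.cons_val_zero, Matrix.cons_val_one,
        e1, e2, Int.natAbs_natCast, Int.natCast_dvd_natCast]
      constructor
      · rintro ⟨f1, f2, f3, ⟨f4, f5⟩, f6, f7⟩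
        refine ⟨f1, f2, f3, f4, f6, fun q hq hqd => ?_⟩
        rcases hqd with hqd | hqd
        · exact f5 q hq hqd
        · exact f7 q hq hqd
      · rintro ⟨f1, f2, f3, f4, f6, f7⟩
        exact ⟨f1, f2, f3, ⟨f4, fun q hq hqd => f7 q hq (Or.inl hqd)⟩, f6,
          fun q hq hqd => f7 q hq (Or.inr hqd)⟩
    rw [e] at h1
    simp only [hc]
    exact h1

end Pool.Agent.Results.MP_c0d11e_nt.HomotheticTriples
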