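import Pool.Graph.R_pool_sql_team_seeded_b677cdb8.Results.MP_c0d11e_nt.DilatedTriplesH28
import Pool.Agent.Helper12.ST.Fin

/-!
# Prime triples of both shapes: the SAME `n` for a positive proportion, up to the logarithms, of arbitrary dilates

The problem asks for the number of primes `p ≤ n` for which `p + 2`, `p + 6` (or `p + 4`, `p + 6`) are primes. We consider
dilates of the two patterns at arbitrary places: triples `s, s + 2 h, s + 6 h` (or `s, s + 4 h, s + 6 h`), where `(s, h)` runs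
through any finite set `T` with `s + 6 h ≤ x` in which every integer is at most `K` times an `h` and at most `K` times the
first, the second and the third member of the triple, and which has at least `K x / log ^ A x` elements (for instance one
place `s = s(h)` for every `h` of an arbitrary set of at least `x / log ^ A x` integers). Then at least
`c x / (log log log x) ^ D` integers `n ≤ x` shift at least `c |T| / log ^ 3 x` of the triples into the primes at the same
time; this is the expected number, up to the constant.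
-/

set_option autoImplicit false

open Finset Filter Topology

namespace Pool.Agent.Results.MP_c0d11e_nt.SimultaneousTriples

open Pool.Agent.Results.MP_c0d11e_nt.DilatedTriplesH28 (triples G Holds)
open Pool.Agent.Helper12.ST (ev_logs mainK NT mem_NT)

/-- The elements `(s, h)` of `T` for which `n + s`, `n + s + b h` and `n + s + 6 h` are all prime. -/
def Shifted (b : ℕ) (T : Finset (ℕ × ℕ)) (n : ℕ) : Finset (ℕ × ℕ) :=
  T.filter fun t => (n + t.1).Prime ∧ (n + t.1 + b * t.2).Prime ∧ (n + t.1 + 6 * t.2).Prime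

/-- Every integer is at most `K` times a number `h`, a number `s`, a number `s + b h`, a number `s + 6 h`, for `(s, h)` in
`T`. -/
def Mult (b : ℕ) (T : Finset (ℕ × ℕ)) (K : ℕ) : Prop :=
  ∀ v, #{t ∈ T | t.2 = v} ≤ K ∧ #{t ∈ T | t.1 = v} ≤ K ∧ #{t ∈ T | t.1 + b * t.2 = v} ≤ K ∧
    #{t ∈ T | t.1 + 6 * t.2 = v} ≤ K

/-- the number of the `p` in `(u, u + H]` for which `p`, `p + b h`, `p + 6 h` are prime -/
def Wt (b h u H : ℕ) : ℕ := #{p ∈ Ioc u (u + H) | p.Prime ∧ (p + b * h).Prime ∧ (p + 6 * h).Prime}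

lemma one_le_G (h : ℕ) : 1 ≤ G h := by
  unfold G
  have h1 : (1 : ℝ) ≤ ∏ p ∈ h.primeFactors.filter (fun p => 3 < p), (((p : ℝ) - 1) / (p - 3)) := by
    calc (1 : ℝ) = ∏ _p ∈ h.primeFactors.filter (fun p => 3 < p), (1 : ℝ) := prod_const_one.symm
      _ ≤ _ := by
        apply Finset.prod_le_prod (fun _ _ => zero_le_one)
        intro p hp
        have h3 : (3 : ℝ) < p := by exact_mod_cast (mem_filter.1 hp).2
        rw [le_div_iff₀ (by linarith)]
        linarith
  have h2 : (1 : ℝ) ≤ (if 3 ∣ h then 2 else 1) := by split_ifs <;> norm_num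
  nlinarith

lemma sub1 (b h H u : ℕ) (hu : u ≤ H / 2) : triples b h H ≤ triples b h (H / 2) + Wt b h u H := by
  unfold triples Wt
  refine le_trans (card_le_card ?_) (card_union_le _ _)
  intro p hp
  rw [mem_filter, mem_Icc] at hp
  rw [mem_union, mem_filter, mem_filter, mem_Icc, mem_Ioc]
  by_cases h : p ≤ H / 2
  · exact Or.inl ⟨⟨hp.1.1, h⟩, hp.2⟩
  · exact Or.inr ⟨⟨by omega, by omega⟩, hp.2⟩

lemma sub2 (b h H u : ℕ) (hu : ¬ u ≤ H / 2) (hu2 : u ≤ H) :
    triples b h (H + H / 2) ≤ triples b h H + Wt b h u H := by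
  unfold triples Wt
  refine le_trans (card_le_card ?_) (card_union_le _ _)
  intro p hp
  rw [mem_filter, mem_Icc] at hp
  rw [mem_union, mem_filter, mem_filter, mem_Icc, mem_Ioc]
  by_cases h : p ≤ H
  · exact Or.inl ⟨⟨hp.1.1, h⟩, hp.2⟩
  · exact Or.inr ⟨⟨by omega, by omega⟩, hp.2⟩

open Classical in
/-- prime triples in all windows of length `H`, for all but few dilations -/
theorem window (A : ℕ) : ∃ c : ℝ, 0 < c ∧ ∀ᶠ H : ℕ in atTop,
    (#{h ∈ Icc 1 (H / 2) | ¬ ∀ b, b = 2 ∨ b = 4 → ∀ u ≤ H, c * (H / Real.log H ^ 3) ≤ (Wt b h u H : ℝ)} : ℝ) ≤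
      2 * H / Real.log H ^ A := by
  obtain ⟨D, hD, -, hHL, -⟩ := Pool.Agent.Results.MP_c0d11e_nt.DilatedTriplesH28.result
  obtain ⟨N₀, hexc⟩ := hHL (A + 1) (1 / 100) (by norm_num)
  refine ⟨D * (4 / 10), by positivity, ?_⟩
  filter_upwards [ev_logs 3 A, eventually_ge_atTop (2 * N₀ + 2)] with H ⟨hH3, h6, hpow, hx1, hx3⟩ hH
  have hH0 : (0 : ℝ) < H := by
    have : 0 < H := by omega
    exact_mod_cast this
  have hlogmono : ∀ N : ℕ, H / 2 ≤ N → Real.log ((H / 2 : ℕ) : ℝ) ≤ Real.log N := by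
    intro N hN
    apply Real.log_le_log
    · have : 0 < H / 2 := by omega
      exact_mod_cast this
    · exact_mod_cast hN
  have hLH : 1 ≤ Real.log H := h6.trans (hlogmono H (by omega))
  have hLA : 0 < Real.log H ^ A := by positivity
  have key : ∀ N : ℕ, H / 2 ≤ N → N ≤ 2 * H →
      (#{h ∈ Icc 1 (H / 2) | ¬ (Holds D (1 / 100) (A + 1) N 2 h ∧ Holds D (1 / 100) (A + 1) N 4 h)} : ℝ) ≤
        2 * H / (3 * Real.log H ^ A) := by
    intro N hN1 hN2
    have hl := hlogmono N hN1
    have e1 : #{h ∈ Icc 1 (H / 2) | ¬ (Holds D (1 / 100) (A + 1) N 2 h ∧ Holds D (1 / 100) (A + 1) N 4 h)} ≤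
        ((Icc 1 N).filter (fun h => ¬ (Holds D (1 / 100) (A + 1) N 2 h ∧ Holds D (1 / 100) (A + 1) N 4 h))).card :=
      card_le_card (filter_subset_filter _ (Icc_subset_Icc_right hN1))
    have e2 : (#{h ∈ Icc 1 (H / 2) | ¬ (Holds D (1 / 100) (A + 1) N 2 h ∧ Holds D (1 / 100) (A + 1) N 4 h)} : ℝ) ≤
        ((Icc 1 N).filter (fun h => ¬ (Holds D (1 / 100) (A + 1) N 2 h ∧ Holds D (1 / 100) (A + 1) N 4 h))).card := by
      exact_mod_cast e1
    refine e2.trans ((hexc N (by omega)).trans ?_)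
    have e3 : (N : ℝ) ≤ 2 * H := by exact_mod_cast hN2
    have e4 : 3 * Real.log H ^ A ≤ Real.log N ^ (A + 1) := hpow.trans (pow_le_pow_left₀ (by linarith) hl _)
    exact div_le_div₀ (by positivity) e3 (by positivity) e4
  have hsub : {h ∈ Icc 1 (H / 2) | ¬ ∀ b, b = 2 ∨ b = 4 → ∀ u ≤ H,
      D * (4 / 10) * (H / Real.log H ^ 3) ≤ (Wt b h u H : ℝ)} ⊆
      {h ∈ Icc 1 (H / 2) | ¬ (Holds D (1 / 100) (A + 1) (H / 2) 2 h ∧ Holds D (1 / 100) (A + 1) (H / 2) 4 h)} ∪
      ({h ∈ Icc 1 (H / 2) | ¬ (Holds D (1 / 100) (A + 1) H 2 h ∧ Holds D (1 / 100) (A + 1) H 4 h)} ∪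
      {h ∈ Icc 1 (H / 2) | ¬ (Holds D (1 / 100) (A + 1) (H + H / 2) 2 h ∧
        Holds D (1 / 100) (A + 1) (H + H / 2) 4 h)}) := by
    intro h hd
    rw [mem_filter] at hd
    by_contra hcon
    rw [mem_union, mem_union, mem_filter, mem_filter, mem_filter] at hcon
    push Not at hcon
    obtain ⟨k1, k2, k3⟩ := hcon
    have k1 := k1 hd.1
    have k2 := k2 hd.1
    have k3 := k3 hd.1
    apply hd.2
    obtain ⟨N3, hN3⟩ : ∃ N3 : ℕ, N3 = H + H / 2 := ⟨_, rfl⟩
    have hx3 := hx3
    rw [← hN3] at k3 hx3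
    have hG := one_le_G h
    intro b hb
    have g : ∀ N : ℕ, (Holds D (1 / 100) (A + 1) N 2 h ∧ Holds D (1 / 100) (A + 1) N 4 h) →
        |(triples b h N : ℝ) - D * G h * (N / Real.log N ^ 3)| ≤ 1 / 100 * (D * G h * (N / Real.log N ^ 3)) := by
      intro N hN
      rcases hb with rfl | rfl
      · exact hN.1.2
      · exact hN.2.2
    have g1 := g _ k1
    have g2 := g _ k2
    have g3 := g _ k3
    rw [abs_le] at g1 g2 g3
    set S3 := D * G h with hS3
    have hS : D ≤ S3 := by nlinarith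
    set x2 := (H : ℝ) / Real.log H ^ 3 with hx2
    have hx20 : 0 ≤ x2 := by positivity
    have hS0 : 0 < S3 := by linarith
    intro a ha
    by_cases ha2 : a ≤ H / 2
    · have h1 := sub1 b h H a ha2
      have h2 : (triples b h H : ℝ) ≤ triples b h (H / 2) + Wt b h a H := by
        exact_mod_cast h1
      have h3 := mul_le_mul_of_nonneg_left hx1 hS0.le
      have h4 := mul_le_mul_of_nonneg_right hS hx20
      have h5 : 0 ≤ S3 * x2 := by positivity
      nlinarith [g1.2, g2.1]
    · have h1 := sub2 b h H a ha2 ha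
      rw [← hN3] at h1
      have h2 : (triples b h N3 : ℝ) ≤ triples b h H + Wt b h a H := by
        exact_mod_cast h1
      have h3 := mul_le_mul_of_nonneg_left hx3 hS0.le
      have h4 := mul_le_mul_of_nonneg_right hS hx20
      have h5 : 0 ≤ S3 * x2 := by positivity
      nlinarith [g3.1, g2.2]
  have hc := (card_le_card hsub).trans ((card_union_le _ _).trans (add_le_add le_rfl (card_union_le _ _)))
  have j1 := key (H / 2) le_rfl (by omega)
  have j2 := key H (by omega) (by omega)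
  have j3 := key (H + H / 2) (by omega) (by omega)
  have hc' := (Nat.cast_le (α := ℝ)).2 hc
  push_cast at hc' j1 j2 j3 ⊢
  have e : 2 * (H : ℝ) / (3 * Real.log H ^ A) = (2 * H / Real.log H ^ A) / 3 := by
    field_simp
  rw [e] at j1 j2 j3
  linarith

/-- the triple of the pair `(s, h)` -/
def tr (b : ℕ) (t : ℕ × ℕ) : Fin 3 → ℕ := ![t.1, t.1 + b * t.2, t.1 + 6 * t.2]

/-- the first moment -/
theorem first (A : ℕ) : ∃ c : ℝ, 0 < c ∧ ∀ᶠ H : ℕ in atTop, ∀ b, b = 2 ∨ b = 4 → ∀ (K : ℕ) (T : Finset (ℕ × ℕ)),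
    (∀ t ∈ T, 1 ≤ t.2 ∧ t.1 + 6 * t.2 ≤ H) → (∀ v, #{t ∈ T | t.2 = v} ≤ K) →
    (K : ℝ) * H ≤ #T * Real.log H ^ A → c * #T * H / Real.log H ^ 3 ≤ ∑ t ∈ T, (NT H (tr b t) : ℝ) := by
  classical
  obtain ⟨c, hc, hw⟩ := window (A + 1)
  refine ⟨c / 2, by positivity, ?_⟩
  have hlogt : Tendsto (fun x : ℕ => Real.log (x : ℝ)) atTop atTop :=
    Real.tendsto_log_atTop.comp tendsto_natCast_atTop_atTop
  filter_upwards [hw, hlogt.eventually_ge_atTop 4] with H hH hL2
  intro b hb K T hT hK hHT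
  set L := Real.log (H : ℝ) with hL
  have hL0 : 0 < L := by linarith
  set B := {h ∈ Icc 1 (H / 2) | ¬ ∀ b, b = 2 ∨ b = 4 → ∀ u ≤ H, c * (H / L ^ 3) ≤ (Wt b h u H : ℝ)} with hB
  set Tb := {t ∈ T | t.2 ∈ B} with hTb
  have h1 : (#Tb : ℝ) ≤ #T / 2 := by
    have e1 : #Tb ≤ K * #B := by
      apply Finset.card_le_mul_card_image_of_maps_to (f := Prod.snd) (fun t ht => (mem_filter.1 ht).2)
      intro d _
      refine le_trans (card_le_card ?_) (hK d)
      intro t ht
      rw [mem_filter] at ht ⊢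
      exact ⟨(mem_filter.1 ht.1).1, ht.2⟩
    have e2 : (#Tb : ℝ) ≤ K * #B := by exact_mod_cast e1
    calc (#Tb : ℝ) ≤ K * #B := e2
      _ ≤ K * (2 * H / L ^ (A + 1)) := mul_le_mul_of_nonneg_left hH (Nat.cast_nonneg _)
      _ = 2 * (K * (H : ℝ)) / L ^ (A + 1) := by ring
      _ ≤ 2 * (#T * L ^ A) / L ^ (A + 1) := by gcongr
      _ = 2 * #T / L := by
          rw [pow_succ]
          field_simp
      _ ≤ 2 * #T / 4 := div_le_div_of_nonneg_left (by positivity) (by norm_num) hL2
      _ = #T / 2 := by ring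
  set Tg := {t ∈ T | ¬ t.2 ∈ B} with hTg
  have h2 : (#T : ℝ) / 2 ≤ #Tg := by
    have h3 : #Tb + #Tg = #T := card_filter_add_card_filter_not _
    have h4 : (#Tb : ℝ) + #Tg = #T := by exact_mod_cast h3
    linarith
  have h3 : ∀ t ∈ Tg, c * (H / L ^ 3) ≤ (NT H (tr b t) : ℝ) := by
    intro t ht
    obtain ⟨ht1, ht2⟩ := mem_filter.1 ht
    obtain ⟨k1, k2⟩ := hT t ht1
    have hwin : c * (H / L ^ 3) ≤ (Wt b t.2 t.1 H : ℝ) := by
      by_contra hcon
      apply ht2
      rw [hB, mem_filter, mem_Icc]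
      exact ⟨⟨k1, by omega⟩, fun hall => hcon (hall b hb t.1 (by omega))⟩
    refine hwin.trans ?_
    norm_cast
    unfold Wt NT
    apply card_le_card_of_injOn (fun p => p - t.1)
    · intro p hp
      rw [Finset.mem_coe, mem_filter, mem_Ioc] at hp
      obtain ⟨⟨p1, p2⟩, p3, p4, p5⟩ := hp
      simp only [Finset.mem_coe, mem_NT, mem_Icc]
      refine ⟨by omega, fun j => ?_⟩
      fin_cases j
      · show (p - t.1 + t.1).Prime
        rw [show p - t.1 + t.1 = p by omega]
        exact p3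
      · show (p - t.1 + (t.1 + b * t.2)).Prime
        rw [show p - t.1 + (t.1 + b * t.2) = p + b * t.2 by omega]
        exact p4
      · show (p - t.1 + (t.1 + 6 * t.2)).Prime
        rw [show p - t.1 + (t.1 + 6 * t.2) = p + 6 * t.2 by omega]
        exact p5
    · intro p hp q hq e
      rw [Finset.mem_coe, mem_filter, mem_Ioc] at hp hq
      simp only at e
      omega
  have h0 : 0 ≤ c * (H / L ^ 3) := by positivity
  calc c / 2 * #T * H / L ^ 3 = (#T / 2) * (c * (H / L ^ 3)) := by ring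
    _ ≤ #Tg * (c * (H / L ^ 3)) := mul_le_mul_of_nonneg_right h2 h0
    _ = ∑ t ∈ Tg, c * (H / L ^ 3) := by rw [sum_const, nsmul_eq_mul]
    _ ≤ ∑ t ∈ Tg, (NT H (tr b t) : ℝ) := sum_le_sum h3
    _ ≤ ∑ t ∈ T, (NT H (tr b t) : ℝ) :=
        sum_le_sum_of_subset_of_nonneg (filter_subset _ _) (fun _ _ _ => Nat.cast_nonneg _)

/-- **Arbitrary dilates of the patterns of the problem: the same `n` for many of them.** -/
theorem result (A : ℕ) : ∃ c : ℝ, 0 < c ∧ ∃ D : ℕ, ∀ᶠ x : ℕ in atTop, ∀ b, b = 2 ∨ b = 4 →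
    ∀ (K : ℕ) (T : Finset (ℕ × ℕ)), 1 ≤ K → (∀ t ∈ T, 1 ≤ t.2 ∧ t.1 + 6 * t.2 ≤ x) → Mult b T K →
    (K : ℝ) * x ≤ #T * Real.log x ^ A →
    c * x / Real.log (Real.log (Real.log x)) ^ D ≤
      #{n ∈ Icc 1 x | c * #T / Real.log x ^ 3 ≤ (#(Shifted b T n) : ℝ)} := by
  classical
  obtain ⟨c1, hc1, h1⟩ := first A
  obtain ⟨c, hc, M, h2⟩ := mainK 3 A (by omega) c1 hc1
  refine ⟨c, hc, M, ?_⟩
  filter_upwards [h1, h2, eventually_ge_atTop 1] with x h1 h2 hx
  intro b hb K T hK hT hmul hKT
  have hx0 : (0 : ℝ) < x := by exact_mod_cast hx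
  have hK0 : (0 : ℝ) < K := by exact_mod_cast hK
  have hdist : ∀ (m : ℕ), 1 ≤ m → ∀ v, #{t ∈ T | m * t.2 = v} ≤ K := by
    intro m hm v
    refine le_trans (card_le_card ?_) (hmul (v / m)).1
    intro t ht
    rw [mem_filter] at ht ⊢
    refine ⟨ht.1, ?_⟩
    rw [← ht.2, Nat.mul_div_cancel_left _ (by omega)]
  have key := h2 (ℕ × ℕ) T (tr b) K ?_ ?_ ?_ hKT ?_ (h1 b hb K T hT (fun v => (hmul v).1) hKT)
  · refine key.trans (le_of_eq ?_)
    norm_cast
    congr 1
    apply filter_congr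
    intro n _
    have e : {t ∈ T | ∀ j, (n + tr b t j).Prime} = Shifted b T n := by
      unfold Shifted
      apply filter_congr
      intro t _
      simp only [tr, Fin.forall_fin_succ, Matrix.cons_val_zero, Matrix.cons_val_succ,
        add_assoc, and_true, IsEmpty.forall_iff]
    rw [e]
  · intro t ht
    obtain ⟨k1, k2⟩ := hT t ht
    refine ⟨?_, ?_⟩
    · intro i j hij
      rcases hb with rfl | rfl <;> fin_cases i <;> fin_cases j <;> simp [tr] at hij ⊢ <;> omega
    · intro i
      rcases hb with rfl | rfl <;> fin_cases i <;> simp [tr] <;> omega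
  · intro i v
    obtain ⟨-, m1, m2, m3⟩ := hmul v
    fin_cases i
    · exact m1
    · exact m2
    · exact m3
  · intro i j hij v
    have hd : ∀ m, 1 ≤ m → (∀ t ∈ T, Nat.dist (tr b t i) (tr b t j) = m * t.2) →
        #{t ∈ T | Nat.dist (tr b t i) (tr b t j) = v} ≤ K := by
      intro m hm h
      refine le_trans (le_of_eq ?_) (hdist m hm v)
      congr 1
      apply filter_congr
      intro t ht
      rw [h t ht]
    rcases hb with rfl | rfl
    · fin_cases i <;> fin_cases j
      · exact absurd rfl hij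
      · apply hd 2 (by norm_num)
        intro t _
        show Nat.dist t.1 (t.1 + 2 * t.2) = 2 * t.2
        unfold Nat.dist
        omega
      · apply hd 6 (by norm_num)
        intro t _
        show Nat.dist t.1 (t.1 + 6 * t.2) = 6 * t.2
        unfold Nat.dist
        omega
      · apply hd 2 (by norm_num)
        intro t _
        show Nat.dist (t.1 + 2 * t.2) t.1 = 2 * t.2
        unfold Nat.dist
        omega
      · exact absurd rfl hij
      · apply hd 4 (by norm_num)
        intro t _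
        show Nat.dist (t.1 + 2 * t.2) (t.1 + 6 * t.2) = 4 * t.2
        unfold Nat.dist
        omega
      · apply hd 6 (by norm_num)
        intro t _
        show Nat.dist (t.1 + 6 * t.2) t.1 = 6 * t.2
        unfold Nat.dist
        omega
      · apply hd 4 (by norm_num)
        intro t _
        show Nat.dist (t.1 + 6 * t.2) (t.1 + 2 * t.2) = 4 * t.2
        unfold Nat.dist
        omega
      · exact absurd rfl hij
    · fin_cases i <;> fin_cases j
      · exact absurd rfl hij
      · apply hd 4 (by norm_num)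
        intro t _
        show Nat.dist t.1 (t.1 + 4 * t.2) = 4 * t.2
        unfold Nat.dist
        omega
      · apply hd 6 (by norm_num)
        intro t _
        show Nat.dist t.1 (t.1 + 6 * t.2) = 6 * t.2
        unfold Nat.dist
        omega
      · apply hd 4 (by norm_num)
        intro t _
        show Nat.dist (t.1 + 4 * t.2) t.1 = 4 * t.2
        unfold Nat.dist
        omega
      · exact absurd rfl hij
      · apply hd 2 (by norm_num)
        intro t _
        show Nat.dist (t.1 + 4 * t.2) (t.1 + 6 * t.2) = 2 * t.2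
        unfold Nat.dist
        omega
      · apply hd 6 (by norm_num)
        intro t _
        show Nat.dist (t.1 + 6 * t.2) t.1 = 6 * t.2
        unfold Nat.dist
        omega
      · apply hd 2 (by norm_num)
        intro t _
        show Nat.dist (t.1 + 6 * t.2) (t.1 + 4 * t.2) = 2 * t.2
        unfold Nat.dist
        omega
      · exact absurd rfl hij
  · by_contra hcon
    rw [not_nonempty_iff_eq_empty] at hcon
    rw [hcon] at hKT
    have : (0 : ℝ) < K * x := by positivity
    simp only [card_empty, Nat.cast_zero, zero_mul] at hKT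
    linarith

end Pool.Agent.Results.MP_c0d11e_nt.SimultaneousTriples
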