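import Pool.Agent.Helper12.DU.Tas2
import Pool.Graph.R_pool_sql_team_seeded_b677cdb8.E8helper28.GB.All

/-!
# Prime triples `p, p + 2 h, p + 6 h` and `p, p + 4 h, p + 6 h`: one prime, three arbitrary sets

The problem asks for the number of the primes `p ≤ n` for which `p + a` and `p + 6` are primes (`a = 2`, `a = 4`). Here the
two patterns are dilated by `h`, and the triples `(n, n + a h, n + 6 h)` are counted with `h` in an arbitrary set `S`, two of
the three members in arbitrary sets, and the third one a prime. The number of these triples is the predicted one: the number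
of the same triples whose third member has no prime factor up to a power of `log N`, times the probability that such an
integer is a prime.

The three sets are arbitrary: they may be sparse (as long as a negative power of `log N` of all triples is left), they may
for instance be arbitrary subsets of the primes. Exchanging the members one after the other one gets the known formula for
the number of prime triples, for every set `S` of dilations.

The proof: the bound for forms with four factors, three of them arbitrary, from the uniformity of order three of the primes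
(helper28, project GB) for each of the three places, and the passage from `Λ` to the primes.
-/

set_option autoImplicit false

namespace Pool.Agent.Results.MP_c0d11e_nt.ThreeArbitrarySets

open Finset

open Classical in
/-- The number of the triples `(n, n + a h, n + 6 h)`, `n, h ≥ 1`, `n + 6 h ≤ N`, with `h ∈ S`, `n ∈ A`, `n + a h ∈ B` and
`n + 6 h ∈ C`. -/
noncomputable def count (a : ℕ) (A B C S : Set ℕ) (N : ℕ) : ℕ :=
  ((Icc 1 N ×ˢ Icc 1 N).filter (fun x => x.1 + 6 * x.2 ≤ N ∧ x.2 ∈ S ∧ x.1 ∈ A ∧ x.1 + a * x.2 ∈ B ∧ x.1 + 6 * x.2 ∈ C)).card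

/-- The set of the primes. -/
def Primes : Set ℕ := {m | m.Prime}

/-- The set of the integers without prime factor `p ≤ z`. -/
def Rough (z : ℕ) : Set ℕ := {m | ∀ p : ℕ, p.Prime → p ≤ z → ¬ p ∣ m}

/-- The product of `1 - 1 / p` over the primes `p ≤ z`: the density of `Rough z`. -/
noncomputable def V (z : ℕ) : ℝ := ∏ p ∈ (Icc 1 z).filter Nat.Prime, (1 - 1 / (p : ℝ))

/-- `P` agrees with the prediction `R / (V(z) log N)`, up to the factor `1 + ε` and the error `N ^ 2 / log ^ K N`. -/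
def Expected (K : ℕ) (ε : ℝ) (N z P R : ℕ) : Prop :=
  R / (V z * Real.log N) - N ^ 2 / Real.log N ^ K ≤ (P : ℝ) ∧
    (P : ℝ) ≤ (1 + ε) * (R / (V z * Real.log N)) + N ^ 2 / Real.log N ^ K

open Classical in
/-- the indicator function -/
noncomputable def ind (A : Set ℕ) (x : ℕ) : ℝ := if x ∈ A then 1 else 0

lemma ind_abs (A : Set ℕ) (x : ℕ) : |ind A x| ≤ 1 := by
  unfold ind
  split_ifs <;> simp

open Pool.Agent.Helper12.DU in
open Pool.Agent.E8helper28.LN in
/-- **One prime, three arbitrary sets, both patterns.** -/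
theorem result (K : ℕ) (ε : ℝ) (hε : 0 < ε) : ∃ E₀ : ℕ, ∀ E : ℕ, E₀ ≤ E → ∃ N₀ : ℕ, ∀ N : ℕ, N₀ ≤ N →
    ∀ z : ℕ, z = ⌈Real.log N ^ E⌉₊ → ∀ a : ℕ, a = 2 ∨ a = 4 → ∀ A B C S : Set ℕ,
      Expected K ε N z (count a Primes B C S N) (count a (Rough z) B C S N) ∧
      Expected K ε N z (count a A Primes C S N) (count a A (Rough z) C S N) ∧
      Expected K ε N z (count a A B Primes S N) (count a A B (Rough z) S N) := by
  classical
  obtain ⟨B₀, hB⟩ := W_small Pool.Agent.E8helper28.GB.u3 K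
  obtain ⟨n2, h2⟩ := pair_close K ε hε
  refine ⟨B₀, fun E hE => ?_⟩
  obtain ⟨n1, h1⟩ := hB (E + 1)
  obtain ⟨n3, h3⟩ := Pool.Agent.H373R2.T7.ev_L' 2
  refine ⟨n1 + n2 + n3, fun N hN z hz a ha A B C S => ?_⟩
  have hL := h3 N (by omega)
  set L := Real.log (N : ℝ) with hLd
  have hL1 : 1 ≤ L := by linarith
  have hz1 : L ^ E ≤ z := by rw [hz]; exact Nat.le_ceil _
  have hz2 : (z : ℝ) ≤ L ^ (E + 1) := by
    have h6 := (Nat.ceil_lt_add_one (show 0 ≤ L ^ E by positivity)).le
    have h7 : 1 ≤ L ^ E := one_le_pow₀ hL1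
    rw [hz, pow_succ]
    nlinarith
  have ha6 : a ≤ 6 := by rcases ha with rfl | rfl <;> norm_num
  have key := h1 N (by omega) z ((pow_le_pow_right₀ hL1 hE).trans hz1) hz2 a ha
  have hW : ∀ F0 F1 F2 e : ℕ → ℝ, W a N F0 F1 F2 e = ∑ x ∈ Icc 1 N ×ˢ Icc 1 N,
      if x.1 + 6 * x.2 ≤ N then e x.2 * (F0 x.1 * F1 (x.1 + a * x.2) * F2 (x.1 + 6 * x.2)) else 0 := by
    intro F0 F1 F2 e
    unfold W
    rw [sum_product_right]
  -- the three sets of pairs
  set P0 : Finset (ℕ × ℕ) := (Icc 1 N ×ˢ Icc 1 N).filter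
    (fun x => x.1 + 6 * x.2 ≤ N ∧ x.2 ∈ S ∧ x.1 + a * x.2 ∈ B ∧ x.1 + 6 * x.2 ∈ C) with hP0
  set P1 : Finset (ℕ × ℕ) := (Icc 1 N ×ˢ Icc 1 N).filter
    (fun x => x.1 + 6 * x.2 ≤ N ∧ x.2 ∈ S ∧ x.1 ∈ A ∧ x.1 + 6 * x.2 ∈ C) with hP1
  set P2 : Finset (ℕ × ℕ) := (Icc 1 N ×ˢ Icc 1 N).filter
    (fun x => x.1 + 6 * x.2 ≤ N ∧ x.2 ∈ S ∧ x.1 ∈ A ∧ x.1 + a * x.2 ∈ B) with hP2
  have s0 : ∑ x ∈ P0, dz z (x.1 + 0 * x.2) = W a N (dz z) (ind B) (ind C) (ind S) := by
    rw [hW, hP0, sum_filter]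
    refine sum_congr rfl fun x _ => ?_
    unfold ind
    by_cases c1 : x.1 + 6 * x.2 ≤ N <;> by_cases c2 : x.2 ∈ S <;> by_cases c3 : x.1 + a * x.2 ∈ B <;>
      by_cases c4 : x.1 + 6 * x.2 ∈ C <;> simp [c1, c2, c3, c4]
  have s1 : ∑ x ∈ P1, dz z (x.1 + a * x.2) = W a N (ind A) (dz z) (ind C) (ind S) := by
    rw [hW, hP1, sum_filter]
    refine sum_congr rfl fun x _ => ?_
    unfold ind
    by_cases c1 : x.1 + 6 * x.2 ≤ N <;> by_cases c2 : x.2 ∈ S <;> by_cases c3 : x.1 ∈ A <;>
      by_cases c4 : x.1 + 6 * x.2 ∈ C <;> simp [c1, c2, c3, c4]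
  have s2 : ∑ x ∈ P2, dz z (x.1 + 6 * x.2) = W a N (ind A) (ind B) (dz z) (ind S) := by
    rw [hW, hP2, sum_filter]
    refine sum_congr rfl fun x _ => ?_
    unfold ind
    by_cases c1 : x.1 + 6 * x.2 ≤ N <;> by_cases c2 : x.2 ∈ S <;> by_cases c3 : x.1 ∈ A <;>
      by_cases c4 : x.1 + a * x.2 ∈ B <;> simp [c1, c2, c3, c4]
  have k0 := (key (ind B) (ind C) (ind S) (ind_abs B) (ind_abs C) (ind_abs S)).1
  have k1 := (key (ind A) (ind C) (ind S) (ind_abs A) (ind_abs C) (ind_abs S)).2.1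
  have k2 := (key (ind A) (ind B) (ind S) (ind_abs A) (ind_abs B) (ind_abs S)).2.2
  rw [← s0] at k0
  rw [← s1] at k1
  rw [← s2] at k2
  have hle : ∀ x : ℕ × ℕ, x.1 + 6 * x.2 ≤ N → x.1 + a * x.2 ≤ N := by
    intro x hx
    have := Nat.mul_le_mul_right x.2 ha6
    omega
  have c0 := h2 N (by omega) z 0 P0 (filter_subset _ _) (by
    intro x hx; have := (mem_filter.1 hx).2.1; omega) k0
  have c1 := h2 N (by omega) z a P1 (filter_subset _ _) (fun x hx => hle x (mem_filter.1 hx).2.1) k1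
  have c2 := h2 N (by omega) z 6 P2 (filter_subset _ _) (fun x hx => (mem_filter.1 hx).2.1) k2
  have e0 : ∀ X : Set ℕ, count a X B C S N = (P0.filter (fun x => x.1 + 0 * x.2 ∈ X)).card := by
    intro X
    unfold count
    rw [hP0, filter_filter]
    congr 1
    refine filter_congr fun x _ => ?_
    rw [zero_mul, add_zero]
    tauto
  have e1 : ∀ X : Set ℕ, count a A X C S N = (P1.filter (fun x => x.1 + a * x.2 ∈ X)).card := by
    intro X
    unfold count
    rw [hP1, filter_filter]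
    congr 1
    refine filter_congr fun x _ => ?_
    tauto
  have e2 : ∀ X : Set ℕ, count a A B X S N = (P2.filter (fun x => x.1 + 6 * x.2 ∈ X)).card := by
    intro X
    unfold count
    rw [hP2, filter_filter]
    congr 1
    refine filter_congr fun x _ => ?_
    tauto
  have g : ∀ (c : ℕ) (P : Finset (ℕ × ℕ)), P.filter (fun x => x.1 + c * x.2 ∈ Primes) =
      P.filter (fun x => (x.1 + c * x.2).Prime) := fun c P => filter_congr fun _ _ => Iff.rfl
  have g' : ∀ (c : ℕ) (P : Finset (ℕ × ℕ)), P.filter (fun x => x.1 + c * x.2 ∈ Rough z) =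
      P.filter (fun x => ∀ p : ℕ, p.Prime → p ≤ z → ¬ p ∣ x.1 + c * x.2) := fun c P => filter_congr fun _ _ => Iff.rfl
  refine ⟨?_, ?_, ?_⟩
  · unfold Expected
    rw [e0, e0, g, g']
    exact c0
  · unfold Expected
    rw [e1, e1, g, g']
    exact c1
  · unfold Expected
    rw [e2, e2, g, g']
    exact c2

end Pool.Agent.Results.MP_c0d11e_nt.ThreeArbitrarySets
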