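import Pool.Agent.Helper51.UG.Idx

set_option autoImplicit false

/-!
# Prime triples of both shapes `p, p + a, p + b` and `p, p + (b - a), p + b`, for almost all `a`, `b`

The question is on the numbers of the prime triples of the two shapes `p, p + 2, p + 6` and `p, p + 4, p + 6`: the same
asymptotic formula with the same constant `D`. Here `2`, `6` are replaced by almost all `a`, `b`: let `s 1, ..., s x` and
`t 1, ..., t y` be ARBITRARY families of integers of absolute value at most `B N` of small additive energy of some order `h`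
(for example, for `h = 1`, any set of at least `N / log ^ C N` integers; for larger `h` sparse families such as the powers).
For all but at most `x y / log ^ U N` pairs `(i, j)`, ALL integers `0 < a < b` with `|a - s i|, |b - t j| ≤ log ^ D N` for
which there is no local obstruction have these properties, in EVERY window `(u, u + X]` within `(0, B N]` of length at least
`N / log ^ A N`:
* both shapes of triples satisfy the asymptotic formula of Hardy and Littlewood with the SAME constant;
* for EVERY set `P` of prime triples of one of the shapes and EVERY finite set `T` of at most `m` integers in `[-H, H]`, all but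
  a proportion `δ` (of the number of all such triples) of the members `p` of `P` have `p + d T` contained in `P` for at least
  `D ^ (1 - ε)` of the `d ≤ D`, uniformly up to `D H = X ^ (1 - ε)`.
-/

namespace Pool.Agent.Results.MP_c0d11e_nt.TypicalTriplesBothShapes

open Finset Filter
open Pool.Agent.Helper51.UG (PV cn_eq PV_fin cps cps_shift famW)
open Pool.Agent.TH935.TF (Gz Fq om Adm Dist cn consA consB)
open Pool.Agent.H373R2.T7 (pz mem_pz)

/-- The additive energy of order `h` of the family `s 1, ..., s x`: the number of the solutions of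
`s (v 1) + ... + s (v h) = s (w 1) + ... + s (w h)` with all `v i`, `w i` in `{1, ..., x}`. -/
def energy (h x : ℕ) (s : ℕ → ℤ) : ℕ :=
  (((Fintype.piFinset fun _ : Fin h => Icc 1 x) ×ˢ (Fintype.piFinset fun _ : Fin h => Icc 1 x)).filter
    (fun q => ∑ i, s (q.1 i) = ∑ i, s (q.2 i))).card

/-- The primes `p` of the window `(u, u + X]` for which `p + a` and `p + b` are also primes. -/
def Triples (a b u X : ℕ) : Set ℕ := {p | u < p ∧ p ≤ u + X ∧ p.Prime ∧ (p + a).Prime ∧ (p + b).Prime}

/-- No local obstruction: for every prime `q` there is an `r` such that `q` divides none of `r`, `r + a`, `r + b`. -/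
def Admissible (a b : ℕ) : Prop :=
  ∀ q : ℕ, q.Prime → ∃ r : ℤ, ¬ (q : ℤ) ∣ r ∧ ¬ (q : ℤ) ∣ r + a ∧ ¬ (q : ℤ) ∣ r + b

/-- The number of the residues `r` modulo `q` for which `q` divides one of `r`, `r + a`, `r + b`. -/
def nu (a b q : ℕ) : ℕ := ((range q).filter (fun r => q ∣ r ∨ q ∣ r + a ∨ q ∣ r + b)).card

/-- The partial products of the constant of Hardy and Littlewood. -/
noncomputable def constant (a b z : ℕ) : ℝ :=
  ∏ q ∈ (Icc 1 z).filter Nat.Prime, (1 - (nu a b q : ℝ) / q) / (1 - 1 / (q : ℝ)) ^ 3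

/-- The number of the `1 ≤ d ≤ D` for which all the numbers `p + d t`, `t ∈ T`, belong to `P`. -/
noncomputable def scales (P : Set ℕ) (T : Finset ℤ) (D p : ℕ) : ℕ :=
  {d : ℕ | 1 ≤ d ∧ d ≤ D ∧ ∀ t ∈ T, ∃ q ∈ P, (q : ℤ) = p + d * t}.ncard

/-- In all windows `(u, u + X]` within `(0, B N]` of length at least `N / log ^ A N`: the number of the triples
`p, p + a, p + b` with the constant `S` is asymptotically as expected up to a relative error of at most `ε`, and for every set
`P` of them and every set `T` of at most `m` integers in `[-H, H]` all but `δ #(Triples a b u X)` members `p` of `P` have at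
least `D ^ (1 - ε)` numbers `d ≤ D` with `p + d T` contained in `P`. -/
def Rich (S : ℝ) (A B m : ℕ) (ε δ : ℝ) (N a b : ℕ) : Prop :=
  ∀ u X : ℕ, u + X ≤ B * N → (N : ℝ) / Real.log N ^ A ≤ X →
    |((Triples a b u X).ncard : ℝ) - S * X / Real.log N ^ 3| ≤ ε * (S * X / Real.log N ^ 3) ∧
    ∀ H D : ℕ, 1 ≤ H → (X : ℝ) ^ ε ≤ D → (D : ℝ) * H ≤ (X : ℝ) ^ (1 - ε) →
      ∀ P ⊆ Triples a b u X, ∀ T : Finset ℤ, T.card ≤ m → (∀ t ∈ T, |t| ≤ H) →
        ({p : ℕ | p ∈ P ∧ (scales P T D p : ℝ) < (D : ℝ) ^ (1 - ε)}.ncard : ℝ) ≤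
          δ * ((Triples a b u X).ncard : ℝ)

/-- the slopes -/
def sl (_ : Fin 2) : ℤ := 1

/-- the constant terms -/
def ct (a b : ℤ) (i : Fin 2) : ℤ := if i = 0 then a else b

theorem pv_plus (a b u X : ℕ) : PV sl (ct a b) u X = Triples a b u X := by
  ext p
  unfold PV Triples sl ct
  constructor
  · rintro ⟨h1, h2, h3, h4⟩
    have h5 := h4 0
    have h6 := h4 1
    simp only [if_true, one_mul, show (1 : Fin 2) ≠ 0 by decide, if_false] at h5 h6
    rw [← Nat.cast_add, Int.natAbs_natCast] at h5 h6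
    exact ⟨h1, h2, h3, h5, h6⟩
  · rintro ⟨h1, h2, h3, h4, h5⟩
    refine ⟨h1, h2, h3, fun i => ?_⟩
    fin_cases i
    · simp only [Fin.zero_eta, if_true, one_mul]
      rw [← Nat.cast_add, Int.natAbs_natCast]
      exact h4
    · simp only [Fin.mk_one, one_mul, show (1 : Fin 2) ≠ 0 by decide, if_false]
      rw [← Nat.cast_add, Int.natAbs_natCast]
      exact h5

theorem pv_minus (a b u X : ℕ) (hab : a < b) (n : ℕ) :
    n ∈ PV sl (ct (-a) (-b)) (b + u) X ↔ ∃ p ∈ Triples (b - a) b u X, n = b + p := by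
  unfold PV Triples sl ct
  constructor
  · rintro ⟨h1, h2, h3, h4⟩
    have h5 := h4 0
    have h6 := h4 1
    simp only [if_true, one_mul, show (1 : Fin 2) ≠ 0 by decide, if_false] at h5 h6
    obtain ⟨p, rfl⟩ : ∃ p, n = b + p := ⟨n - b, by omega⟩
    have e5 : (((b + p : ℕ) : ℤ) + -(a : ℤ)).natAbs = p + (b - a) := by omega
    have e6 : (((b + p : ℕ) : ℤ) + -(b : ℤ)).natAbs = p := by omega
    rw [e5] at h5
    rw [e6] at h6
    refine ⟨p, ⟨by omega, by omega, h6, h5, ?_⟩, rfl⟩
    rw [add_comm p b]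
    exact h3
  · rintro ⟨p, ⟨h1, h2, h3, h4, h5⟩, rfl⟩
    refine ⟨by omega, by omega, ?_, fun i => ?_⟩
    · rw [add_comm b p]
      exact h5
    · have e5 : (((b + p : ℕ) : ℤ) + -(a : ℤ)).natAbs = p + (b - a) := by omega
      have e6 : (((b + p : ℕ) : ℤ) + -(b : ℤ)).natAbs = p := by omega
      fin_cases i
      · simp only [Fin.zero_eta, if_true, one_mul]
        rw [e5]
        exact h4
      · simp only [Fin.mk_one, one_mul, show (1 : Fin 2) ≠ 0 by decide, if_false]
        rw [e6]
        exact h3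

theorem om_plus (a b q : ℕ) : om (consA sl) (consB (ct a b)) q = nu a b q := by
  unfold om nu
  congr 1
  apply filter_congr
  intro r _
  rw [Fin.exists_fin_succ, Fin.exists_fin_two]
  unfold consA consB sl ct
  simp only [Fin.cons_zero, Fin.cons_succ, one_mul, add_zero, if_true, show (1 : Fin 2) ≠ 0 by decide,
    if_false]
  rw [← Nat.cast_add, ← Nat.cast_add, Int.natCast_dvd_natCast, Int.natCast_dvd_natCast,
    Int.natCast_dvd_natCast]

theorem om_minus (a b q : ℕ) (hq : q.Prime) :
    om (consA sl) (consB (ct (-a) (-b))) q = om (consA sl) (consB (ct a b)) q := by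
  classical
  have key : ∀ a b : ℤ, om (consA sl) (consB (ct a b)) q ≤ om (consA sl) (consB (ct (-a) (-b))) q := by
    intro a b
    unfold om
    apply card_le_card_of_injOn (fun r => (q - r) % q)
    · intro r hr
      rw [mem_coe, mem_filter, mem_range] at hr
      rw [mem_coe, mem_filter, mem_range]
      refine ⟨Nat.mod_lt _ hq.pos, ?_⟩
      obtain ⟨i, hi⟩ := hr.2
      refine ⟨i, ?_⟩
      have h1 : (((q - r) % q : ℕ) : ℤ) = ((q : ℤ) - r) % q := by
        rw [Int.natCast_mod, Nat.cast_sub hr.1.le]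
      have h2 : (q : ℤ) ∣ (((q - r) % q : ℕ) : ℤ) + r := by
        rw [h1]
        have h3 : (q : ℤ) ∣ ((q : ℤ) - r) % q - ((q : ℤ) - r) := by
          rw [Int.dvd_iff_emod_eq_zero, Int.sub_emod, Int.emod_emod, ← Int.sub_emod, sub_self]
          simp
        have h4 : (((q : ℤ) - r) % q + r) = (((q : ℤ) - r) % q - ((q : ℤ) - r)) + q := by ring
        rw [h4]
        exact dvd_add h3 dvd_rfl
      have h5 : (q : ℤ) ∣ -(consA sl i * (r : ℤ) + consB (ct a b) i) := (Int.dvd_neg).2 hi
      revert h5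
      refine Fin.cases ?_ (fun j => ?_) i
      · unfold consA consB
        rw [Fin.cons_zero, Fin.cons_zero, Fin.cons_zero, one_mul, one_mul, add_zero, add_zero]
        intro h5
        have h6 := dvd_add h2 h5
        have e : (((q - r) % q : ℕ) : ℤ) + r + -(r : ℤ) = (((q - r) % q : ℕ) : ℤ) := by ring
        rw [e] at h6
        exact h6
      · unfold consA consB
        rw [Fin.cons_succ, Fin.cons_succ, Fin.cons_succ]
        unfold sl
        intro h5
        have h6 := dvd_add h2 h5
        have e : (((q - r) % q : ℕ) : ℤ) + r + -(1 * (r : ℤ) + ct a b j) =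
            1 * (((q - r) % q : ℕ) : ℤ) + ct (-a) (-b) j := by
          unfold ct
          split_ifs <;> ring
        rw [e] at h6
        exact h6
    · intro r hr r' hr' he
      rw [mem_coe, mem_filter, mem_range] at hr hr'
      simp only at he
      have h1 := hr.1
      have h2 := hr'.1
      rcases Nat.eq_zero_or_pos r with h3 | h3 <;> rcases Nat.eq_zero_or_pos r' with h4 | h4
      · omega
      · rw [h3, Nat.sub_zero, Nat.mod_self, Nat.mod_eq_of_lt (by omega)] at he
        omega
      · rw [h4, Nat.sub_zero, Nat.mod_self, Nat.mod_eq_of_lt (by omega)] at he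
        omega
      · rw [Nat.mod_eq_of_lt (by omega), Nat.mod_eq_of_lt (by omega)] at he
        omega
  apply le_antisymm
  · have h := key (-a) (-b)
    rw [neg_neg, neg_neg] at h
    exact h
  · exact key a b

theorem gz_constant (a b z : ℕ) : Gz (om (consA sl) (consB (ct a b))) 3 z = constant a b z := by
  have hpz : pz z = (Icc 1 z).filter Nat.Prime := by
    ext p
    rw [mem_pz, mem_filter, mem_Icc]
    constructor
    · rintro ⟨h1, h2⟩
      exact ⟨⟨h2.pos, h1⟩, h2⟩
    · rintro ⟨⟨h0, h1⟩, h2⟩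
      exact ⟨h1, h2⟩
  unfold Gz constant Fq
  rw [hpz]
  refine prod_congr rfl fun p _ => ?_
  rw [om_plus]

theorem gz_minus (a b z : ℕ) : Gz (om (consA sl) (consB (ct (-a) (-b)))) 3 z = constant a b z := by
  rw [← gz_constant]
  unfold Gz Fq
  refine prod_congr rfl fun p hp => ?_
  rw [om_minus a b p (mem_pz.1 hp).2]

theorem adm_plus (a b : ℕ) (h : Admissible a b) : Adm (consA sl) (consB (ct a b)) := by
  intro p hp
  obtain ⟨r, h1, h2, h3⟩ := h p hp
  refine ⟨r, fun i => ?_⟩
  refine Fin.cases ?_ (fun j => ?_) i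
  · unfold consA consB
    rw [Fin.cons_zero, Fin.cons_zero, one_mul, add_zero]
    exact h1
  · unfold consA consB
    rw [Fin.cons_succ, Fin.cons_succ]
    unfold sl ct
    rw [one_mul]
    split_ifs
    · exact h2
    · exact h3

theorem adm_minus (a b : ℕ) (h : Admissible a b) : Adm (consA sl) (consB (ct (-a) (-b))) := by
  intro p hp
  obtain ⟨r, h1, h2, h3⟩ := h p hp
  refine ⟨-r, fun i => ?_⟩
  refine Fin.cases ?_ (fun j => ?_) i
  · unfold consA consB
    rw [Fin.cons_zero, Fin.cons_zero, one_mul, add_zero, Int.dvd_neg]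
    exact h1
  · unfold consA consB
    rw [Fin.cons_succ, Fin.cons_succ]
    unfold sl ct
    rw [one_mul]
    split_ifs
    · rw [show -r + -(a : ℤ) = -(r + a) by ring, Int.dvd_neg]
      exact h2
    · rw [show -r + -(b : ℤ) = -(r + b) by ring, Int.dvd_neg]
      exact h3

theorem dist_of (a b : ℤ) (ha : a ≠ 0) (hb : b ≠ 0) (hab : a ≠ b) : Dist (consA sl) (consB (ct a b)) := by
  have h1 : ∀ j : Fin 2, ct a b j ≠ 0 := by
    intro j
    unfold ct
    split_ifs
    · exact ha
    · exact hb
  intro i j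
  refine Fin.cases ?_ (fun i' => ?_) i
  · refine Fin.cases ?_ (fun j' => ?_) j
    · intro h
      exact absurd rfl h
    · intro _
      unfold consA consB
      rw [Fin.cons_zero, Fin.cons_succ, Fin.cons_zero, Fin.cons_succ]
      refine ⟨fun h => h1 j' h.2.symm, fun h => h1 j' ?_⟩
      have := h.2
      omega
  · refine Fin.cases ?_ (fun j' => ?_) j
    · intro _
      unfold consA consB
      rw [Fin.cons_zero, Fin.cons_succ, Fin.cons_zero, Fin.cons_succ]
      refine ⟨fun h => h1 i' h.2, fun h => h1 i' ?_⟩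
      have := h.2
      omega
    · intro h
      unfold consA consB
      rw [Fin.cons_succ, Fin.cons_succ, Fin.cons_succ, Fin.cons_succ]
      have hij : i' ≠ j' := fun h2 => h (by rw [h2])
      refine ⟨fun h2 => ?_, fun h2 => ?_⟩
      · have h3 := h2.2
        unfold ct at h3
        fin_cases i' <;> fin_cases j'
        · exact hij rfl
        · simp at h3
          exact hab h3
        · simp at h3
          exact hab h3.symm
        · exact hij rfl
      · have h3 := h2.1
        unfold sl at h3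
        omega

/-- **Both shapes of prime triples, for almost all `a`, `b`.** -/
theorem result (h A B C D U m : ℕ) (ε δ : ℝ) (hε : 0 < ε) (hε1 : ε < 1) (hδ : 0 < δ) :
    ∃ N₀ : ℕ, ∀ N : ℕ, N₀ ≤ N → ∀ (x y : ℕ) (s t : ℕ → ℤ),
      (∀ i ∈ Icc 1 x, |s i| ≤ B * N) → (∀ j ∈ Icc 1 y, |t j| ≤ B * N) →
      (energy h x s : ℝ) * N ≤ Real.log N ^ C * (x : ℝ) ^ (2 * h) →
      (energy h y t : ℝ) * N ≤ Real.log N ^ C * (y : ℝ) ^ (2 * h) →
      ∃ E : Finset (ℕ × ℕ), (E.card : ℝ) ≤ x * y / Real.log N ^ U ∧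
        ∀ i ∈ Icc 1 x, ∀ j ∈ Icc 1 y, (i, j) ∉ E →
        ∀ a b : ℕ, 0 < a → a < b → |((a - s i : ℤ) : ℝ)| ≤ Real.log N ^ D → |((b - t j : ℤ) : ℝ)| ≤ Real.log N ^ D →
          Admissible a b →
          ∃ S : ℝ, 0 < S ∧ Tendsto (constant a b) atTop (nhds S) ∧
            Rich S A B m ε δ N a b ∧ Rich S A B m ε δ N (b - a) b := by
  classical
  obtain ⟨N₀, h0⟩ := famW 2 h 1 A (2 * B + 1) C D (U + 1) m (by norm_num) ε δ hε hε1 hδ
  obtain ⟨N₁, h1⟩ := Pool.Agent.H373R2.T7.ev_L' 2
  obtain ⟨N₂, h2'⟩ := Pool.Agent.Helper51.UG.ev_logpow 1 D 1 (by norm_num)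
  refine ⟨max N₀ (max N₁ N₂), fun N hN x y s t hs ht hEs hEt => ?_⟩
  have g0 : N₀ ≤ N := (le_max_left _ _).trans hN
  have g1 := h1 N (((le_max_left _ _).trans (le_max_right _ _)).trans hN)
  have g2 := h2' N (((le_max_right _ _).trans (le_max_right _ _)).trans hN)
  rw [one_mul, Real.rpow_one] at g2
  set L : ℝ := Real.log N with hL
  have hL0 : 0 < L := by linarith
  set X : Fin 2 → ℕ := fun i => if i = 0 then x else y with hX
  set σ : ℤ → Fin 2 → ℕ → ℤ := fun e i k => e * (if i = 0 then s k else t k) with hσ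
  have hneg : ∀ (z : ℕ) (f : ℕ → ℤ), Pool.Agent.H373R2.T7.energy h z (fun k => -1 * f k) =
      Pool.Agent.H373R2.T7.energy h z f := by
    intro z f
    unfold Pool.Agent.H373R2.T7.energy
    congr 1
    apply filter_congr
    intro q _
    rw [← mul_sum, ← mul_sum]
    constructor <;> intro h <;> linarith
  have hbd : ∀ e : ℤ, (e = 1 ∨ e = -1) → ∀ i, ∀ k ∈ Icc 1 (X i), |σ e i k| ≤ (2 * B + 1 : ℕ) * N := by
    intro e he i k hk
    have h2 : |σ e i k| = |if i = 0 then s k else t k| := by
      rw [hσ]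
      rcases he with rfl | rfl
      · simp only [one_mul]
      · simp only [neg_mul, one_mul, abs_neg]
    rw [h2]
    have hBN : (B : ℤ) * N ≤ (2 * B + 1 : ℕ) * N := by
      apply mul_le_mul_of_nonneg_right _ (Int.natCast_nonneg N)
      push_cast
      omega
    refine le_trans ?_ hBN
    rw [hX] at hk
    split_ifs with h3
    · simp only [h3, if_true] at hk
      exact hs k hk
    · simp only [h3, if_false] at hk
      exact ht k hk
  have hen : ∀ e : ℤ, (e = 1 ∨ e = -1) → ∀ i, (Pool.Agent.H373R2.T7.energy h (X i) (σ e i) : ℝ) * N ≤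
      L ^ C * (X i : ℝ) ^ (2 * h) := by
    intro e he i
    have h2 : Pool.Agent.H373R2.T7.energy h (X i) (σ e i) =
        Pool.Agent.H373R2.T7.energy h (X i) (fun k => if i = 0 then s k else t k) := by
      rcases he with rfl | rfl
      · rw [hσ]
        simp only [one_mul]
      · exact hneg _ _
    rw [h2, hX]
    by_cases h3 : i = 0
    · simp only [h3, if_true]
      exact hEs
    · simp only [h3, if_false]
      exact hEt
  -- the exceptional pairs
  set bad : ℤ → ℕ × ℕ → Prop := fun e q => ∃ β : Fin 2 → ℤ,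
    (∀ i, |((β i - σ e i (if i = 0 then q.1 else q.2) : ℤ) : ℝ)| ≤ L ^ D) ∧
      ¬ Pool.Agent.Helper51.UG.Rich 1 (2 * B + 1 + 1) A m ε δ N β with hbad
  have hcard : ∀ e : ℤ, (e = 1 ∨ e = -1) →
      ((((Icc 1 x) ×ˢ (Icc 1 y)).filter (bad e)).card : ℝ) ≤ x * y / L ^ (U + 1) := by
    intro e he
    set 𝒮 : Finset (Fin 2 → ℕ) := (Fintype.piFinset (fun i => Icc 1 (X i))).filter
      (fun q => bad e (q 0, q 1)) with h𝒮
    have h2 := h0 N g0 X (σ e) (hbd e he) (hen e he) 𝒮 (filter_subset _ _) (fun q hq => by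
      obtain ⟨-, β, h3, h4⟩ := mem_filter.1 hq
      refine ⟨β, fun i => ?_, h4⟩
      have h5 := h3 i
      fin_cases i
      · exact h5
      · exact h5)
    have h3 : (((Icc 1 x) ×ˢ (Icc 1 y)).filter (bad e)).card ≤ 𝒮.card := by
      apply card_le_card_of_injOn (fun q i => if i = 0 then q.1 else q.2)
      · intro q hq
        rw [mem_coe, mem_filter, mem_product] at hq
        rw [mem_coe, h𝒮, mem_filter, Fintype.mem_piFinset]
        refine ⟨fun i => ?_, ?_⟩
        · rw [hX]
          by_cases h4 : i = 0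
          · simp only [h4, if_true]
            exact hq.1.1
          · simp only [h4, if_false]
            exact hq.1.2
        · simp only [if_true, show (1 : Fin 2) ≠ 0 by decide, if_false]
          exact hq.2
      · intro q _ q' _ he
        have e0 := congrFun he 0
        have e1 := congrFun he 1
        simp only [if_true, show (1 : Fin 2) ≠ 0 by decide, if_false] at e0 e1
        exact Prod.ext e0 e1
    have h4 : ((((Icc 1 x) ×ˢ (Icc 1 y)).filter (bad e)).card : ℝ) ≤ 𝒮.card := by exact_mod_cast h3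
    refine h4.trans (h2.trans (le_of_eq ?_))
    rw [Fin.prod_univ_two, hX, ← hL]
    simp
  refine ⟨((Icc 1 x) ×ˢ (Icc 1 y)).filter (bad 1) ∪ ((Icc 1 x) ×ˢ (Icc 1 y)).filter (bad (-1)), ?_, ?_⟩
  · have h2 := hcard 1 (Or.inl rfl)
    have h3 := hcard (-1) (Or.inr rfl)
    have h4 : (((((Icc 1 x) ×ˢ (Icc 1 y)).filter (bad 1) ∪ ((Icc 1 x) ×ˢ (Icc 1 y)).filter (bad (-1))).card : ℕ) : ℝ) ≤
        (((Icc 1 x) ×ˢ (Icc 1 y)).filter (bad 1)).card + (((Icc 1 x) ×ˢ (Icc 1 y)).filter (bad (-1))).card := by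
      exact_mod_cast card_union_le _ _
    have h5 : (x : ℝ) * y / L ^ (U + 1) * 2 ≤ x * y / L ^ U := by
      calc (x : ℝ) * y / L ^ (U + 1) * 2 ≤ x * y / L ^ (U + 1) * L := by
            apply mul_le_mul_of_nonneg_left g1 (by positivity)
        _ = x * y / L ^ U := by
            rw [pow_succ]
            field_simp
    linarith
  · intro i hi j hj hE a b ha hab hai hbj hadm
    rw [mem_union, not_or] at hE
    have hmem : (i, j) ∈ (Icc 1 x) ×ˢ (Icc 1 y) := mem_product.2 ⟨hi, hj⟩
    have hgood : ∀ e : ℤ, ¬ ((i, j) ∈ ((Icc 1 x) ×ˢ (Icc 1 y)).filter (bad e)) →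
        ∀ β : Fin 2 → ℤ, (∀ l, |((β l - σ e l (if l = 0 then i else j) : ℤ) : ℝ)| ≤ L ^ D) →
        Pool.Agent.Helper51.UG.Rich 1 (2 * B + 1 + 1) A m ε δ N β := by
      intro e he β hβ
      by_contra hcon
      exact he (mem_filter.2 ⟨hmem, β, hβ, hcon⟩)
    have r1 := hgood 1 hE.1 (ct a b) (fun l => by
      rw [hσ]
      unfold ct
      by_cases h4 : l = 0
      · simp only [h4, if_true, one_mul]
        exact hai
      · simp only [h4, if_false, one_mul]
        exact hbj)
    have r2 := hgood (-1) hE.2 (ct (-a) (-b)) (fun l => by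
      rw [hσ]
      unfold ct
      by_cases h4 : l = 0
      · simp only [h4, if_true]
        rw [show (-(a : ℤ) - -1 * s i) = -((a : ℤ) - s i) by ring, Int.cast_neg, abs_neg]
        exact hai
      · simp only [h4, if_false]
        rw [show (-(b : ℤ) - -1 * t j) = -((b : ℤ) - t j) by ring, Int.cast_neg, abs_neg]
        exact hbj)
    have hsl : ∀ l : Fin 2, sl l ≠ 0 ∧ |sl l| ≤ ((1 : ℕ) : ℤ) := by
      intro l
      unfold sl
      norm_num
    obtain ⟨S₁, hS₁, hT₁, hw₁⟩ := r1 sl hsl (adm_plus a b hadm) (dist_of _ _ (by omega) (by omega) (by omega))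
    obtain ⟨S₂, hS₂, hT₂, hw₂⟩ := r2 sl hsl (adm_minus a b hadm) (dist_of _ _ (by omega) (by omega) (by omega))
    have hT₁' : Tendsto (constant a b) atTop (nhds S₁) := by
      refine hT₁.congr fun z => ?_
      exact gz_constant a b z
    have hT₂' : Tendsto (constant a b) atTop (nhds S₂) := by
      refine hT₂.congr fun z => ?_
      exact gz_minus a b z
    have hSS : S₂ = S₁ := tendsto_nhds_unique hT₂' hT₁'
    have hBN : B * N ≤ (2 * B + 1 + 1) * N := Nat.mul_le_mul_right _ (by omega)
    refine ⟨S₁, hS₁, hT₁', ?_, ?_⟩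
    · intro u Y huY hY
      obtain ⟨e1, e2⟩ := hw₁ u Y (huY.trans hBN) hY
      rw [cn_eq, pv_plus] at e1 e2
      refine ⟨e1, fun H D' hH hD hDH P hP T hTm hT => ?_⟩
      refine e2 (fun l n hn _ => ?_) H D' hH hD hDH P (fun n hn => ?_) T hTm hT
      · unfold sl ct
        split_ifs
        · have h4 : (0 : ℤ) ≤ (n : ℤ) := Int.natCast_nonneg n
          have h5 : (0 : ℤ) < (a : ℤ) := by exact_mod_cast ha
          omega
        · have h4 : (0 : ℤ) ≤ (n : ℤ) := Int.natCast_nonneg n
          have h5 : (0 : ℤ) < (b : ℤ) := by exact_mod_cast ha.trans hab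
          omega
      · have h4 : n ∈ PV sl (ct a b) u Y := by
          rw [pv_plus]
          exact hP hn
        exact h4
    · intro u Y huY hY
      have hbB : b + u + Y ≤ (2 * B + 1 + 1) * N := by
        -- `b ≤ B N + L ^ D`: we only need a bound by `(B + 2) N`
        by_contra hcon
        push Not at hcon
        have h6 : (B + 2) * N < b := by
          have e : (2 * B + 1 + 1) * N = (B + 2) * N + B * N := by ring
          omega
        have h7 := ht j hj
        have h8 : 2 * (N : ℤ) < (b : ℤ) - t j := by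
          have h9 := (abs_le.1 h7).2
          have h10 : ((B : ℤ) + 2) * N < b := by exact_mod_cast h6
          linarith
        have h9 : (2 : ℝ) * N < ((b - t j : ℤ) : ℝ) := by exact_mod_cast h8
        have h10 := (abs_le.1 hbj).2
        have h11 : (0 : ℝ) ≤ N := Nat.cast_nonneg _
        linarith
      obtain ⟨e1, e2⟩ := hw₂ (b + u) Y hbB hY
      rw [hSS, cn_eq] at e1
      rw [cn_eq] at e2
      have hcard : ∀ Q Q' : Set ℕ, (∀ n, n ∈ Q' ↔ ∃ g ∈ Q, n = b + g) → Q'.ncard = Q.ncard := by
        intro Q Q' hQ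
        have : Q' = (fun g => b + g) '' Q := by
          ext n
          rw [hQ]
          constructor
          · rintro ⟨g, hg, rfl⟩
            exact ⟨g, hg, rfl⟩
          · rintro ⟨g, hg, rfl⟩
            exact ⟨g, hg, rfl⟩
        rw [this, Set.ncard_image_of_injective _ (fun x y h => Nat.add_left_cancel h)]
      rw [hcard _ _ (pv_minus a b u Y hab)] at e1 e2
      refine ⟨e1, fun H D' hH hD hDH P hP T hTm hT => ?_⟩
      obtain ⟨P', hP'⟩ : ∃ Q' : Set ℕ, ∀ n, n ∈ Q' ↔ ∃ g ∈ P, n = b + g :=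
        ⟨{n | ∃ g ∈ P, n = b + g}, fun n => Iff.rfl⟩
      have e3 := e2 (fun l n hn _ => by
        unfold sl ct
        split_ifs
        · omega
        · omega) H D' hH hD hDH P' (fun n hn => by
          obtain ⟨g, hg, rfl⟩ := (hP' n).1 hn
          exact (pv_minus a b u Y hab _).2 ⟨g, hP hg, rfl⟩) T hTm hT
      have e4 : {n : ℕ | n ∈ P' ∧ (cps P' T D' n : ℝ) < (D' : ℝ) ^ (1 - ε)}.ncard =
          {p : ℕ | p ∈ P ∧ (scales P T D' p : ℝ) < (D' : ℝ) ^ (1 - ε)}.ncard := by
        apply hcard
        intro n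
        constructor
        · rintro ⟨f1, f2⟩
          obtain ⟨g, hg, rfl⟩ := (hP' n).1 f1
          rw [cps_shift P T D' b g P' hP'] at f2
          exact ⟨g, ⟨hg, f2⟩, rfl⟩
        · rintro ⟨g, ⟨hg, f2⟩, rfl⟩
          refine ⟨(hP' _).2 ⟨g, hg, rfl⟩, ?_⟩
          rw [cps_shift P T D' b g P' hP']
          exact f2
      rw [e4] at e3
      exact e3

end Pool.Agent.Results.MP_c0d11e_nt.TypicalTriplesBothShapes
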